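import Mathlib

/-!
A frontier dynamic programming procedure, run on one fragment of a graph, with its soundness proof.

The vertices of the fragment are the natural numbers below `62`; the numbers `62, 63, ...` stand for
the outer ends of the edges that leave the fragment.  `q x` is the position of the vertex `x` on a
path of the graph.  If no end of the path lies in the fragment, then each vertex `v` of the
fragment has exactly two neighbours at distance one on the path, one before and one behind it.
-/

set_option autoImplicit false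

namespace Pool.Agent.Lib.MP_d1bda4_co

/-- A state: a list of facts.  A fact is a pair (code of an edge that leaves the processed part, value). -/
abbrev St := List (ℕ × ℕ)

def get (k : ℕ) : St → ℕ
  | [] => 2
  | (k', x) :: t => bif Nat.beq k k' then x else get k t

def upd (v ea eb : ℕ) : St → St
  | [] => []
  | (k, x) :: t =>
    bif Nat.beq (k % 256) v then upd v ea eb t
    else bif Nat.beq k ea then (k, eb) :: upd v ea eb t
    else bif Nat.beq k eb then (k, ea) :: upd v ea eb t
    else (k, x) :: upd v ea eb t

def code (x y : ℕ) : ℕ := 256 * (x + 1) + y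

def news (v a b ea eb : ℕ) : List (ℕ × ℕ) → St → St
  | [], s => s
  | (w, x) :: t, s =>
    bif Nat.beq x 2 && !(Nat.ble 62 w) then
      (code v w, bif Nat.beq w a then eb else bif Nat.beq w b then ea else 0) :: news v a b ea eb t s
    else news v a b ea eb t s

def conf (a b : ℕ) : List (ℕ × ℕ) → Bool
  | [] => false
  | (w, x) :: t =>
    (bif Nat.beq w a || Nat.beq w b then Nat.beq x 0 else !(Nat.beq x 0 || Nat.beq x 2)) || conf a b t

def opt (v a va b vb : ℕ) (nbv : List (ℕ × ℕ)) (s : St) : List St :=
  bif Nat.beq va (code b v) || conf a b nbv then []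
  else
    let ea := bif Nat.beq va 2 then (bif Nat.ble 62 a then 1 else code v a) else va
    let eb := bif Nat.beq vb 2 then (bif Nat.ble 62 b then 1 else code v b) else vb
    [news v a b ea eb nbv (upd v ea eb s)]

def step (v : ℕ) (nb : List ℕ) (s : St) : List St :=
  match nb.map (fun w => (w, get (code w v) s)) with
  | [(x, vx), (y, vy)] => opt v x vx y vy [(x, vx), (y, vy)] s
  | [(x, vx), (y, vy), (z, vz)] =>
    let n := [(x, vx), (y, vy), (z, vz)]
    opt v x vx y vy n s ++ (opt v x vx z vz n s ++ opt v y vy z vz n s)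
  | [(x, vx), (y, vy), (z, vz), (w, vw)] =>
    let n := [(x, vx), (y, vy), (z, vz), (w, vw)]
    opt v x vx y vy n s ++ (opt v x vx z vz n s ++ (opt v y vy z vz n s ++
      (opt v x vx w vw n s ++ (opt v y vy w vw n s ++ opt v z vz w vw n s))))
  | _ => [s]

def eqSt : St → St → Bool
  | [], [] => true
  | (a, b) :: s, (c, d) :: t => Nat.beq b d && Nat.beq a c && eqSt s t
  | _, _ => false

def hsh : St → ℕ → ℕ
  | [], h => h
  | (_, x) :: t, h => hsh t (h * 16384 + x)

/-- Binary search trees of states. -/
inductive T
  | leaf : T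
  | node : ℕ → St → T → T → T

def ins (k : ℕ) (s : St) : T → T
  | .leaf => .node k s .leaf .leaf
  | .node k' s' l r =>
    bif Nat.beq k k' && eqSt s s' then .node k' s' l r
    else bif Nat.ble k k' then .node k' s' (ins k s l) r
    else .node k' s' l (ins k s r)

def toL : T → List St → List St
  | .leaf, acc => acc
  | .node _ s l r, acc => toL l (s :: toL r acc)

def insAll : List St → T → T
  | [], acc => acc
  | s :: l, acc => insAll l (ins (hsh s 0) s acc)

def stepAll (v : ℕ) (nb : List ℕ) : List St → T → T
  | [], acc => acc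
  | s :: l, acc => stepAll v nb l (insAll (step v nb s) acc)

def run : List (ℕ × List ℕ) → List St → List St
  | [], l => l
  | (v, nb) :: t, l => run t (toL (stepAll v nb l .leaf) [])

def isE : List St → Bool
  | [] => true
  | _ :: _ => false

/-! ### Semantics -/

section sem

/-- `x` and `y` are consecutive. -/
def Used (q : ℕ → ℤ) (x y : ℕ) : Prop := q y = q x + 1 ∨ q x = q y + 1

/-- The path runs from the dart `(y, x)` to the dart `(x', y')`, in one of the two directions. -/
def Link (q : ℕ → ℤ) (x y x' y' : ℕ) : Prop :=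
  (q x = q y + 1 ∧ q y' = q x' + 1 ∧ q x ≤ q x') ∨ (q y = q x + 1 ∧ q x' = q y' + 1 ∧ q x' ≤ q x)

def src (k : ℕ) : ℕ := k / 256 - 1
def tgt (k : ℕ) : ℕ := k % 256

/-- Meaning of a fact. -/
def Sem (q : ℕ → ℤ) (p : ℕ × ℕ) : Prop :=
  3 ≤ p.1 → ((p.2 = 0 → ¬ Used q (src p.1) (tgt p.1)) ∧ (p.2 = 1 → Used q (src p.1) (tgt p.1)) ∧
    (3 ≤ p.2 → Link q (src p.1) (tgt p.1) (src p.2) (tgt p.2)))

def Good (q : ℕ → ℤ) (s : St) : Prop := ∀ p ∈ s, Sem q p

lemma src_code (x y : ℕ) (hy : y < 256) : src (code x y) = x := by
  unfold src code; omega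

lemma tgt_code (x y : ℕ) (hy : y < 256) : tgt (code x y) = y := by
  unfold tgt code; omega

lemma three_le_code (x y : ℕ) : 3 ≤ code x y := by unfold code; omega

lemma beq_iff (a b : ℕ) : Nat.beq a b = true ↔ a = b := Nat.beq_eq ▸ Iff.rfl

lemma get_sem (q : ℕ → ℤ) (k : ℕ) (s : St) (h : Good q s) : Sem q (k, get k s) := by
  induction s with
  | nil => intro _; simp [get]
  | cons p t ih =>
    obtain ⟨k', x⟩ := p
    have ht : Good q t := fun p hp => h p (List.mem_cons_of_mem _ hp)
    have h0 := h (k', x) (List.mem_cons_self)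
    unfold get
    cases hb : Nat.beq k k' with
    | true =>
      have : k = k' := Nat.eq_of_beq_eq_true hb
      subst this; simpa using h0
    | false => simpa using ih ht

lemma used_symm {q : ℕ → ℤ} {x y : ℕ} : Used q x y ↔ Used q y x := by
  unfold Used; omega

lemma link_used {q : ℕ → ℤ} {x y x' y' : ℕ} (h : Link q x y x' y') : Used q x y := by
  unfold Link at h; unfold Used; omega

/-- negation does not change the meaning -/
lemma sem_neg {q : ℕ → ℤ} {p : ℕ × ℕ} (h : Sem q p) : Sem (fun x => - q x) p := by
  intro h3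
  obtain ⟨h0, h1, h2⟩ := h h3
  refine ⟨fun e => ?_, fun e => ?_, fun e => ?_⟩
  · have := h0 e; simp only [Used] at *; omega
  · have := h1 e; simp only [Used] at *; omega
  · have := h2 e; simp only [Link] at *; omega

lemma good_neg {q : ℕ → ℤ} {s : St} (h : Good q s) : Good (fun x => - q x) s :=
  fun p hp => sem_neg (h p hp)

lemma good_neg' {q : ℕ → ℤ} {s : St} (h : Good (fun x => - q x) s) : Good q s := by
  have := good_neg h
  simpa using this

/-- `e` is reached from `v` in increasing direction -/
def Up (q : ℕ → ℤ) (v e : ℕ) : Prop := e = 1 ∨ (3 ≤ e ∧ q (tgt e) = q (src e) + 1 ∧ q v ≤ q (src e))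
/-- `e` is reached from `v` in decreasing direction -/
def Dn (q : ℕ → ℤ) (v e : ℕ) : Prop := e = 1 ∨ (3 ≤ e ∧ q (src e) = q (tgt e) + 1 ∧ q (src e) ≤ q v)

lemma sem_up_dn {q : ℕ → ℤ} {v e f : ℕ} (he : Up q v e) (hf : Dn q v f) : Sem q (e, f) := by
  intro h3
  unfold Up at he; unfold Dn at hf
  refine ⟨fun h => ?_, fun h => ?_, fun h => ?_⟩ <;> simp only [Used, Link] at * <;> omega

lemma sem_dn_up {q : ℕ → ℤ} {v e f : ℕ} (he : Up q v e) (hf : Dn q v f) : Sem q (f, e) := by
  intro h3
  unfold Up at he; unfold Dn at hf
  refine ⟨fun h => ?_, fun h => ?_, fun h => ?_⟩ <;> simp only [Used, Link] at * <;> omega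

lemma upd_good {q : ℕ → ℤ} {v e f : ℕ} {s : St} (h : Good q s) (he : Sem q (e, f))
    (hf : Sem q (f, e)) : Good q (upd v e f s) := by
  induction s with
  | nil => intro p hp; simp [upd] at hp
  | cons p t ih =>
    obtain ⟨k, x⟩ := p
    have ht : Good q t := fun p hp => h p (List.mem_cons_of_mem _ hp)
    have h0 := h (k, x) (List.mem_cons_self)
    have ih' := ih ht
    unfold upd
    cases hb : Nat.beq (k % 256) v with
    | true => simpa using ih'
    | false =>
      cases hc : Nat.beq k e with
      | true =>
        have hk : k = e := Nat.eq_of_beq_eq_true hc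
        subst hk
        intro p hp
        simp only [cond_false, cond_true, List.mem_cons] at hp
        rcases hp with rfl | hp
        · exact he
        · exact ih' p hp
      | false =>
        cases hd : Nat.beq k f with
        | true =>
          have hk : k = f := Nat.eq_of_beq_eq_true hd
          subst hk
          intro p hp
          simp only [cond_false, cond_true, List.mem_cons] at hp
          rcases hp with rfl | hp
          · exact hf
          · exact ih' p hp
        | false =>
          intro p hp
          simp only [cond_false, List.mem_cons] at hp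
          rcases hp with rfl | hp
          · exact h0
          · exact ih' p hp

lemma news_good {q : ℕ → ℤ} {v a b e f : ℕ} {nbv : List (ℕ × ℕ)} {s : St} (h : Good q s)
    (ha : Sem q (code v a, f)) (hb : Sem q (code v b, e))
    (ho : ∀ p ∈ nbv, p.1 < 256 ∧ (p.1 ≠ a → p.1 ≠ b → ¬ Used q v p.1)) :
    Good q (news v a b e f nbv s) := by
  induction nbv with
  | nil => simpa [news] using h
  | cons p t ih =>
    obtain ⟨w, x⟩ := p
    have ih' := ih (fun p hp => ho p (List.mem_cons_of_mem _ hp))
    have h0 := ho (w, x) (List.mem_cons_self)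
    unfold news
    cases hc : (Nat.beq x 2 && !(Nat.ble 62 w)) with
    | false => simpa using ih'
    | true =>
      intro p hp
      simp only [cond_true, List.mem_cons] at hp
      rcases hp with rfl | hp
      · cases hwa : Nat.beq w a with
        | true =>
          have : w = a := Nat.eq_of_beq_eq_true hwa
          subst this; simpa using ha
        | false =>
          cases hwb : Nat.beq w b with
          | true =>
            have : w = b := Nat.eq_of_beq_eq_true hwb
            subst this; simpa using hb
          | false =>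
            have hna : w ≠ a := Nat.ne_of_beq_eq_false hwa
            have hnb : w ≠ b := Nat.ne_of_beq_eq_false hwb
            intro _
            simp only [cond_false]
            refine ⟨fun _ => ?_, fun h => ?_, fun h => ?_⟩
            · rw [src_code _ _ h0.1, tgt_code _ _ h0.1]; exact h0.2 hna hnb
            · simp at h
            · simp at h
      · exact ih' p hp

lemma conf_false {q : ℕ → ℤ} {v a b : ℕ} {nbv : List (ℕ × ℕ)} (hv : v < 256)
    (hs : ∀ p ∈ nbv, Sem q (code p.1 v, p.2))
    (hu : ∀ p ∈ nbv, (p.1 = a ∨ p.1 = b) → Used q v p.1)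
    (ho : ∀ p ∈ nbv, (p.1 ≠ a → p.1 ≠ b → ¬ Used q v p.1)) : conf a b nbv = false := by
  induction nbv with
  | nil => rfl
  | cons p t ih =>
    obtain ⟨w, x⟩ := p
    have ih' := ih (fun p hp => hs p (List.mem_cons_of_mem _ hp))
      (fun p hp => hu p (List.mem_cons_of_mem _ hp)) (fun p hp => ho p (List.mem_cons_of_mem _ hp))
    have hs0 := hs (w, x) (List.mem_cons_self) (three_le_code _ _)
    have hu0 := hu (w, x) (List.mem_cons_self)
    have ho0 := ho (w, x) (List.mem_cons_self)
    simp only [src_code _ _ hv, tgt_code _ _ hv] at hs0 hu0 ho0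
    unfold conf
    rw [ih']
    cases hwab : (Nat.beq w a || Nat.beq w b) with
    | true =>
      have hw : w = a ∨ w = b := by
        rw [Bool.or_eq_true] at hwab
        exact hwab.imp Nat.eq_of_beq_eq_true Nat.eq_of_beq_eq_true
      have hus := hu0 hw
      simp only [cond_true, Bool.or_false]
      cases hx : Nat.beq x 0 with
      | false => rfl
      | true =>
        have : x = 0 := Nat.eq_of_beq_eq_true hx
        exact absurd (used_symm.1 hus) (hs0.1 this)
    | false =>
      rw [Bool.or_eq_false_iff] at hwab
      have hna : w ≠ a := Nat.ne_of_beq_eq_false hwab.1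
      have hnb : w ≠ b := Nat.ne_of_beq_eq_false hwab.2
      have hnu := ho0 hna hnb
      simp only [cond_false, Bool.or_false]
      by_cases h0 : x = 0
      · subst h0; rfl
      by_cases h2 : x = 2
      · subst h2; rfl
      exfalso
      apply hnu
      rw [used_symm]
      by_cases h1 : x = 1
      · exact hs0.2.1 h1
      · exact link_used (hs0.2.2 (by omega))

/-- One orientation of `opt_sound`. -/
lemma opt_sound_aux {q : ℕ → ℤ} {v a va b vb : ℕ} {nbv : List (ℕ × ℕ)} {s : St} (hv : v < 256)
    (ha : a < 256) (hb : b < 256) (h : Good q s) (hsa : Sem q (code a v, va))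
    (hsb : Sem q (code b v, vb))
    (hs : ∀ p ∈ nbv, Sem q (code p.1 v, p.2)) (hlt : ∀ p ∈ nbv, p.1 < 256)
    (hqa : q a = q v + 1) (hqb : q v = q b + 1)
    (hva : va ≠ 0) (hvb : vb ≠ 0)
    (ho : ∀ p ∈ nbv, (p.1 ≠ a → p.1 ≠ b → ¬ Used q v p.1)) :
    ∃ s' ∈ opt v a va b vb nbv s, Good q s' := by
  have hconf : conf a b nbv = false := by
    refine conf_false hv hs ?_ ho
    intro p _ hp
    rcases hp with hp | hp <;> rw [hp] <;> unfold Used <;> omega
  have hcyc : Nat.beq va (code b v) = false := by
    cases hc : Nat.beq va (code b v) with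
    | false => rfl
    | true =>
      exfalso
      have hc' : va = code b v := Nat.eq_of_beq_eq_true hc
      have := (hsa (three_le_code _ _)).2.2 (by rw [hc']; exact three_le_code _ _)
      rw [hc'] at this
      simp only [src_code _ _ hv, tgt_code _ _ hv] at this
      unfold Link at this
      omega
  have hea : Up q v (bif Nat.beq va 2 then (bif Nat.ble 62 a then 1 else code v a) else va) := by
    cases h2 : Nat.beq va 2 with
    | true =>
      simp only [cond_true]
      cases h62 : Nat.ble 62 a with
      | true => left; rfl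
      | false =>
        right
        simp only [cond_false]
        rw [src_code _ _ ha, tgt_code _ _ ha]
        exact ⟨three_le_code _ _, hqa, le_refl _⟩
    | false =>
      have h2' : va ≠ 2 := Nat.ne_of_beq_eq_false h2
      simp only [cond_false]
      by_cases h1 : va = 1
      · left; exact h1
      · right
        have h3 : 3 ≤ va := by omega
        have := (hsa (three_le_code _ _)).2.2 h3
        simp only [src_code _ _ hv, tgt_code _ _ hv] at this
        unfold Link at this
        refine ⟨h3, ?_, ?_⟩ <;> omega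
  have heb : Dn q v (bif Nat.beq vb 2 then (bif Nat.ble 62 b then 1 else code v b) else vb) := by
    cases h2 : Nat.beq vb 2 with
    | true =>
      simp only [cond_true]
      cases h62 : Nat.ble 62 b with
      | true => left; rfl
      | false =>
        right
        simp only [cond_false]
        rw [src_code _ _ hb, tgt_code _ _ hb]
        exact ⟨three_le_code _ _, hqb, le_refl _⟩
    | false =>
      have h2' : vb ≠ 2 := Nat.ne_of_beq_eq_false h2
      simp only [cond_false]
      by_cases h1 : vb = 1
      · left; exact h1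
      · right
        have h3 : 3 ≤ vb := by omega
        have := (hsb (three_le_code _ _)).2.2 h3
        simp only [src_code _ _ hv, tgt_code _ _ hv] at this
        unfold Link at this
        refine ⟨h3, ?_, ?_⟩ <;> omega
  have hcode_a : Up q v (code v a) := by
    right; rw [src_code _ _ ha, tgt_code _ _ ha]; exact ⟨three_le_code _ _, hqa, le_refl _⟩
  have hcode_b : Dn q v (code v b) := by
    right; rw [src_code _ _ hb, tgt_code _ _ hb]; exact ⟨three_le_code _ _, hqb, le_refl _⟩
  unfold opt
  rw [hconf, hcyc]
  simp only [Bool.or_false, cond_false]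
  refine ⟨_, List.mem_singleton.2 rfl, ?_⟩
  refine news_good (upd_good h (sem_up_dn hea heb) (sem_dn_up hea heb))
    (sem_up_dn hcode_a heb) (sem_dn_up hea hcode_b) ?_
  intro p hp
  exact ⟨hlt p hp, ho p hp⟩

lemma opt_sound {q : ℕ → ℤ} {v a va b vb : ℕ} {nbv : List (ℕ × ℕ)} {s : St} (hv : v < 256)
    (h : Good q s) (ham : (a, va) ∈ nbv) (hbm : (b, vb) ∈ nbv)
    (hs : ∀ p ∈ nbv, Sem q (code p.1 v, p.2)) (hlt : ∀ p ∈ nbv, p.1 < 256)
    (hq : (q a = q v + 1 ∧ q v = q b + 1) ∨ (q v = q a + 1 ∧ q b = q v + 1))
    (ho : ∀ p ∈ nbv, (p.1 ≠ a → p.1 ≠ b → ¬ Used q v p.1)) :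
    ∃ s' ∈ opt v a va b vb nbv s, Good q s' := by
  have ha : a < 256 := hlt _ ham
  have hb : b < 256 := hlt _ hbm
  have hsa : Sem q (code a v, va) := hs _ ham
  have hsb : Sem q (code b v, vb) := hs _ hbm
  have hva : va ≠ 0 := by
    intro h0
    have := (hsa (three_le_code _ _)).1 h0
    simp only [src_code _ _ hv, tgt_code _ _ hv] at this
    apply this; unfold Used; omega
  have hvb : vb ≠ 0 := by
    intro h0
    have := (hsb (three_le_code _ _)).1 h0
    simp only [src_code _ _ hv, tgt_code _ _ hv] at this
    apply this; unfold Used; omega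
  rcases hq with ⟨h1, h2⟩ | ⟨h1, h2⟩
  · exact opt_sound_aux hv ha hb h hsa hsb hs hlt h1 h2 hva hvb ho
  · obtain ⟨s', hs', hg⟩ := opt_sound_aux (q := fun x => - q x) hv ha hb (good_neg h)
      (sem_neg hsa) (sem_neg hsb) (fun p hp => sem_neg (hs p hp)) hlt
      (by show - q a = - q v + 1; omega) (by show - q v = - q b + 1; omega) hva hvb
      (fun p hp h1 h2 h3 => ho p hp h1 h2 (by simp only [Used] at *; omega))
    exact ⟨s', hs', good_neg' hg⟩

/-- The hypothesis on one vertex `v` with neighbour list `nb`. -/
def HV (q : ℕ → ℤ) (v : ℕ) (nb : List ℕ) : Prop :=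
  v < 256 ∧ (∀ w ∈ nb, w < 256) ∧ ∃ a ∈ nb, ∃ b ∈ nb, q a = q v + 1 ∧ q v = q b + 1 ∧
    ∀ w ∈ nb, w ≠ a → w ≠ b → ¬ Used q v w

lemma step_sound {q : ℕ → ℤ} {v : ℕ} {nb : List ℕ} {s : St} (hV : HV q v nb) (h : Good q s) :
    ∃ s' ∈ step v nb s, Good q s' := by
  obtain ⟨hv, hnb, a, ha, b, hb, hqa, hqb, ho⟩ := hV
  have key : ∀ (n : List (ℕ × ℕ)), nb.map (fun w => (w, get (code w v) s)) = n →
      ∀ x y, (x, get (code x v) s) ∈ n → (y, get (code y v) s) ∈ n →
      ((x = a ∧ y = b) ∨ (x = b ∧ y = a)) →
      ∃ s' ∈ opt v x (get (code x v) s) y (get (code y v) s) n s, Good q s' := by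
    intro n hn x y hx hy hxy
    have hmem : ∀ p ∈ n, p.1 ∈ nb ∧ p.2 = get (code p.1 v) s := by
      intro p hp
      rw [← hn, List.mem_map] at hp
      obtain ⟨w, hw, rfl⟩ := hp
      exact ⟨hw, rfl⟩
    refine opt_sound hv h hx hy ?_ ?_ ?_ ?_
    · intro p hp
      rw [(hmem p hp).2]
      exact get_sem q _ s h
    · intro p hp; exact hnb _ (hmem p hp).1
    · rcases hxy with ⟨rfl, rfl⟩ | ⟨rfl, rfl⟩
      · left; exact ⟨hqa, hqb⟩
      · right; exact ⟨hqb, hqa⟩
    · intro p hp h1 h2
      rcases hxy with ⟨rfl, rfl⟩ | ⟨rfl, rfl⟩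
      · exact ho _ (hmem p hp).1 h1 h2
      · exact ho _ (hmem p hp).1 h2 h1
  have hab : a ≠ b := by rintro rfl; omega
  unfold step
  rcases nb with _ | ⟨x, _ | ⟨y, _ | ⟨z, _ | ⟨w, _ | ⟨u, t⟩⟩⟩⟩⟩
  · exact ⟨s, List.mem_singleton.2 rfl, h⟩
  · exact ⟨s, List.mem_singleton.2 rfl, h⟩
  · have k := key _ rfl
    simp only [List.map_cons, List.map_nil] at k ⊢
    apply k x y (by simp) (by simp)
    simp only [List.mem_cons, List.not_mem_nil, or_false] at ha hb
    omega
  · have k := key _ rfl
    simp only [List.map_cons, List.map_nil] at k ⊢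
    have k1 := k x y (by simp) (by simp)
    have k2 := k x z (by simp) (by simp)
    have k3 := k y z (by simp) (by simp)
    simp only [List.mem_append, exists_or, or_and_right]
    simp only [List.mem_cons, List.not_mem_nil, or_false] at ha hb
    have : ((x = a ∧ y = b) ∨ (x = b ∧ y = a)) ∨ ((x = a ∧ z = b) ∨ (x = b ∧ z = a)) ∨
        ((y = a ∧ z = b) ∨ (y = b ∧ z = a)) := by
      clear k k1 k2 k3 ho hqa hqb key hnb
      rcases ha with rfl | rfl | rfl <;> rcases hb with rfl | rfl | rfl <;>
        first | exact absurd rfl hab | simp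
    rcases this with h' | h' | h'
    · left; exact k1 h'
    · right; left; exact k2 h'
    · right; right; exact k3 h'
  · have k := key _ rfl
    simp only [List.map_cons, List.map_nil] at k ⊢
    have k1 := k x y (by simp) (by simp)
    have k2 := k x z (by simp) (by simp)
    have k3 := k y z (by simp) (by simp)
    have k4 := k x w (by simp) (by simp)
    have k5 := k y w (by simp) (by simp)
    have k6 := k z w (by simp) (by simp)
    simp only [List.mem_append, exists_or, or_and_right]
    simp only [List.mem_cons, List.not_mem_nil, or_false] at ha hb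
    have : ((x = a ∧ y = b) ∨ (x = b ∧ y = a)) ∨ ((x = a ∧ z = b) ∨ (x = b ∧ z = a)) ∨
        ((y = a ∧ z = b) ∨ (y = b ∧ z = a)) ∨ ((x = a ∧ w = b) ∨ (x = b ∧ w = a)) ∨
        ((y = a ∧ w = b) ∨ (y = b ∧ w = a)) ∨ ((z = a ∧ w = b) ∨ (z = b ∧ w = a)) := by
      clear k k1 k2 k3 k4 k5 k6 ho hqa hqb key hnb
      rcases ha with rfl | rfl | rfl | rfl <;> rcases hb with rfl | rfl | rfl | rfl <;>
        first | exact absurd rfl hab | simp
    rcases this with h' | h' | h' | h' | h' | h'
    · left; exact k1 h'
    · right; left; exact k2 h'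
    · right; right; left; exact k3 h'
    · right; right; right; left; exact k4 h'
    · right; right; right; right; left; exact k5 h'
    · right; right; right; right; right; exact k6 h'
  · exact ⟨s, List.mem_singleton.2 rfl, h⟩

/-! ### The containers -/

lemma eqSt_eq : ∀ s t : St, eqSt s t = true → s = t
  | [], [], _ => rfl
  | [], _ :: _, h => by simp [eqSt] at h
  | _ :: _, [], h => by simp [eqSt] at h
  | (a, b) :: s, (c, d) :: t, h => by
    simp only [eqSt, Bool.and_eq_true] at h
    obtain ⟨⟨h1, h2⟩, h3⟩ := h
    rw [Nat.eq_of_beq_eq_true h1, Nat.eq_of_beq_eq_true h2, eqSt_eq s t h3]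

/-- Membership in a tree. -/
def MemT (s : St) : T → Prop
  | .leaf => False
  | .node _ s' l r => s = s' ∨ MemT s l ∨ MemT s r

lemma memT_ins_self (k : ℕ) (s : St) (t : T) : MemT s (ins k s t) := by
  induction t with
  | leaf => left; rfl
  | node k' s' l r ihl ihr =>
    unfold ins
    cases h : (Nat.beq k k' && eqSt s s') with
    | true =>
      left
      rw [Bool.and_eq_true] at h
      exact eqSt_eq _ _ h.2
    | false =>
      cases h' : Nat.ble k k' with
      | true => right; left; exact ihl
      | false => right; right; exact ihr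

lemma memT_ins (k : ℕ) (s u : St) (t : T) (h : MemT u t) : MemT u (ins k s t) := by
  induction t with
  | leaf => exact h.elim
  | node k' s' l r ihl ihr =>
    unfold ins
    cases h1 : (Nat.beq k k' && eqSt s s') with
    | true => exact h
    | false =>
      cases h' : Nat.ble k k' with
      | true =>
        rcases h with h | h | h
        · left; exact h
        · right; left; exact ihl h
        · right; right; exact h
      | false =>
        rcases h with h | h | h
        · left; exact h
        · right; left; exact h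
        · right; right; exact ihr h

lemma mem_toL_acc (t : T) (acc : List St) (u : St) (h : u ∈ acc) : u ∈ toL t acc := by
  induction t generalizing acc with
  | leaf => exact h
  | node k s l r ihl ihr =>
    unfold toL
    exact ihl _ (List.mem_cons_of_mem _ (ihr _ h))

lemma mem_toL (t : T) (acc : List St) (u : St) (h : MemT u t) : u ∈ toL t acc := by
  induction t generalizing acc with
  | leaf => exact h.elim
  | node k s l r ihl ihr =>
    unfold toL
    rcases h with rfl | h | h
    · exact mem_toL_acc _ _ _ List.mem_cons_self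
    · exact ihl _ h
    · exact mem_toL_acc _ _ _ (List.mem_cons_of_mem _ (ihr _ h))

lemma insAll_acc (l : List St) (t : T) (u : St) (h : MemT u t) : MemT u (insAll l t) := by
  induction l generalizing t with
  | nil => exact h
  | cons s l ih => unfold insAll; exact ih _ (memT_ins _ _ _ _ h)

lemma insAll_mem (l : List St) (t : T) (u : St) (h : u ∈ l) : MemT u (insAll l t) := by
  induction l generalizing t with
  | nil => simp at h
  | cons s l ih =>
    unfold insAll
    rcases List.mem_cons.1 h with rfl | h
    · exact insAll_acc _ _ _ (memT_ins_self _ _ _)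
    · exact ih _ h

lemma stepAll_acc (v : ℕ) (nb : List ℕ) (l : List St) (t : T) (u : St) (h : MemT u t) :
    MemT u (stepAll v nb l t) := by
  induction l generalizing t with
  | nil => exact h
  | cons s l ih => unfold stepAll; exact ih _ (insAll_acc _ _ _ h)

lemma stepAll_mem (v : ℕ) (nb : List ℕ) (l : List St) (t : T) (s u : St) (hs : s ∈ l)
    (h : u ∈ step v nb s) : MemT u (stepAll v nb l t) := by
  induction l generalizing t with
  | nil => simp at hs
  | cons s' l ih =>
    unfold stepAll
    rcases List.mem_cons.1 hs with rfl | hs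
    · exact stepAll_acc _ _ _ _ _ (insAll_mem _ _ _ h)
    · exact ih _ hs

lemma run_sound {q : ℕ → ℤ} (tb : List (ℕ × List ℕ)) (hV : ∀ p ∈ tb, HV q p.1 p.2) (l : List St)
    (h : ∃ s ∈ l, Good q s) : ∃ s ∈ run tb l, Good q s := by
  induction tb generalizing l with
  | nil => exact h
  | cons p t ih =>
    obtain ⟨v, nb⟩ := p
    unfold run
    apply ih (fun p hp => hV p (List.mem_cons_of_mem _ hp))
    obtain ⟨s, hs, hg⟩ := h
    obtain ⟨u, hu, hgu⟩ := step_sound (hV (v, nb) List.mem_cons_self) hg
    exact ⟨u, mem_toL _ _ _ (stepAll_mem _ _ _ _ _ _ hs hu), hgu⟩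

/-- If the procedure ends with no state, then there is no such position function. -/
theorem dp_sound {q : ℕ → ℤ} (tb : List (ℕ × List ℕ)) (hrun : isE (run tb [[]]) = true)
    (hV : ∀ p ∈ tb, HV q p.1 p.2) : False := by
  obtain ⟨s, hs, _⟩ := run_sound tb hV [[]] ⟨[], by simp, by intro p hp; simp at hp⟩
  rcases hr : run tb [[]] with _ | ⟨a, l⟩
  · rw [hr] at hs; simp at hs
  · rw [hr] at hrun; simp [isE] at hrun

end sem

end Pool.Agent.Lib.MP_d1bda4_co
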