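import Mathlib

/-!
The graph: a ring of three copies of a fragment with `62` vertices.  Vertex `62 * u + x` is the
vertex `x` of the copy `u`.
-/

set_option autoImplicit false

namespace Pool.Agent.Lib.MP_d1bda4_co

/-- Adjacency matrix of the fragment, as a bit mask: bit `62 * x + y`. -/
def MF : ℕ := 0x2080400000000000410080000000000482000000000000210400000000008102080000000004080410000000000081100000000000010a00000000000002140000000000000420200000000000081100000000000018800000000000080044000000000010028000000000002005000000000000408800000000000084040000000000010220000000000000000082000000800000010400000010000012080000002000008410000000400004082000000000002010400000000002044000000000000428000000000000085000000000000010808000000000002044000000000000620000000000002001100000000000400a000000000000801400000000000102200000000000021010000000000004088000000000000000020810000000000004100400000000004820000000000002104020000000001020a0000000000080410000000000081100000000000010a0000000000000214000000000000042020000000000008110000000000001880000000000008004400000000001002800000000000200500000000000040880000000000008404000000000001022000000000000800028000000002000005000020000000000820000000000000410000000000002000000000010000500000000001000280000040000000040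

/-- Adjacency in the ring of three copies. -/
def adjB (a b : ℕ) : Bool :=
  bif Nat.beq (a / 62) (b / 62) then Nat.testBit MF (62 * (a % 62) + b % 62)
  else bif Nat.beq (b / 62) ((a / 62 + 1) % 3) then
    (Nat.beq (a % 62) 0 && Nat.beq (b % 62) 5) || (Nat.beq (a % 62) 4 && Nat.beq (b % 62) 3)
  else
    (Nat.beq (b % 62) 0 && Nat.beq (a % 62) 5) || (Nat.beq (b % 62) 4 && Nat.beq (a % 62) 3)

lemma all_range {n : ℕ} {f : ℕ → Bool} (h : (List.range n).all f = true) (a : ℕ) (ha : a < n) :
    f a = true := by
  rw [List.all_eq_true] at h
  exact h a (List.mem_range.2 ha)

lemma adjB_symm_check : ((List.range 186).all fun a => (List.range 186).all fun b =>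
    (!adjB a b) || adjB b a) = true := by decide +kernel

lemma adjB_irrefl_check : ((List.range 186).all fun a => !adjB a a) = true := by decide +kernel

/-- The graph. -/
def G : SimpleGraph (Fin 186) where
  Adj a b := adjB a b = true
  symm := by
    constructor
    intro a b h
    have := all_range (all_range adjB_symm_check a a.2) b b.2
    simpa [h] using this
  loopless := by
    constructor
    intro a h
    have := all_range adjB_irrefl_check a a.2
    simp [h] at this

lemma G_adj (a b : Fin 186) : G.Adj a b ↔ adjB a b = true := Iff.rfl

end Pool.Agent.Lib.MP_d1bda4_co
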