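import Mathlib
import Pool.Agent.Lib.MP_d1bda4_co.Dp
import Pool.Agent.Lib.MP_d1bda4_co.Graph

/-!
The ring of three copies has no Hamiltonian path: some copy contains no end of it, and the
procedure of `Dp.lean` shows that a path without an end in a copy cannot pass through all its
vertices.
-/

set_option autoImplicit false

namespace Pool.Agent.Lib.MP_d1bda4_co

open SimpleGraph

/-- The vertices of the fragment in the order in which they are processed, with their neighbours;
`62, ..., 65` are the outer neighbours of `0`, `3`, `5`, `4`. -/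
def tbl : List (ℕ × List ℕ) := [
  (11, [10, 12, 23]), (23, [11, 17, 20]), (17, [16, 18, 23]), (18, [17, 19, 24]),
  (12, [11, 13, 24]), (24, [2, 12, 18]), (20, [8, 14, 23]), (13, [8, 12, 25]), (8, [9, 13, 20]),
  (9, [8, 16, 21]), (16, [9, 17, 22]), (19, [14, 18, 25]), (25, [6, 13, 19]), (14, [15, 19, 20]),
  (15, [10, 14, 21]), (10, [11, 15, 22]), (22, [1, 10, 16, 21]), (21, [7, 9, 15, 22]),
  (7, [1, 3, 21]), (1, [5, 7, 22]), (5, [1, 43, 64]), (43, [5, 31, 37]), (31, [26, 30, 43]),
  (37, [32, 36, 43]), (32, [33, 37, 38]), (38, [26, 32, 41]), (26, [27, 31, 38]),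
  (30, [29, 31, 42]), (41, [29, 35, 38]), (29, [28, 30, 41]), (36, [35, 37, 42]),
  (42, [0, 30, 36]), (35, [34, 36, 41]), (6, [0, 2, 25]), (2, [4, 6, 24]), (0, [6, 42, 62]),
  (27, [26, 34, 39]), (34, [27, 35, 40]), (33, [28, 32, 39]), (28, [29, 33, 40]),
  (39, [27, 33, 40, 60]), (40, [28, 34, 39, 61]), (61, [40, 49, 55]), (49, [44, 48, 61]),
  (55, [50, 54, 61]), (44, [45, 49, 56]), (56, [44, 50, 59]), (50, [51, 55, 56]),
  (48, [47, 49, 60]), (60, [39, 48, 54]), (54, [53, 55, 60]), (59, [47, 53, 56]),
  (53, [52, 54, 59]), (47, [46, 48, 59]), (52, [45, 53, 58]), (45, [44, 52, 57]),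
  (58, [3, 46, 52, 57]), (46, [47, 51, 58]), (51, [46, 50, 57]), (3, [7, 58, 63]),
  (57, [4, 45, 51, 58]), (4, [2, 57, 65])]

/-- The vertex of the graph that the label `y` of the copy `u` stands for. -/
def lab (u y : ℕ) : ℕ :=
  if y < 62 then 62 * u + y
  else if y = 62 then 62 * ((u + 1) % 3) + 5
  else if y = 63 then 62 * ((u + 2) % 3) + 4
  else if y = 64 then 62 * ((u + 2) % 3)
  else 62 * ((u + 1) % 3) + 3

lemma run_check : isE (run tbl [[]]) = true := by decide +kernel

lemma tbl_check : ((List.range 3).all fun u => tbl.all fun p => decide (p.1 < 62) &&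
    p.2.all (fun w => decide (w < 66)) && decide ((p.2.map (lab u)).Nodup) &&
    (List.range 186).all fun g => (!adjB (62 * u + p.1) g) || (p.2.map (lab u)).contains g)
    = true := by decide +kernel

lemma lab_lt {u y : ℕ} (hu : u < 3) (hy : y < 66) : lab u y < 186 := by
  unfold lab; split_ifs <;> omega

/-- Position of a vertex in a list. -/
def posL (L : List (Fin 186)) (y : ℕ) : ℤ := if h : y < 186 then (L.idxOf (⟨y, h⟩ : Fin 186) : ℤ) else 0

/-- A graph path through all vertices gives the hypothesis of the procedure in a copy without ends. -/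
theorem neg : ¬ ∃ a b : Fin 186, ∃ p : G.Walk a b, p.IsHamiltonian := by
  rintro ⟨a, b, p, hp⟩
  obtain ⟨u, hu, hua, hub⟩ : ∃ u < 3, (a : ℕ) / 62 ≠ u ∧ (b : ℕ) / 62 ≠ u := by
    by_contra hcon
    have h0 := fun h1 h2 => hcon ⟨0, by norm_num, h1, h2⟩
    have h1 := fun h1 h2 => hcon ⟨1, by norm_num, h1, h2⟩
    have h2 := fun h1 h2 => hcon ⟨2, by norm_num, h1, h2⟩
    simp only [imp_false, not_not, ne_eq] at h0 h1 h2
    omega
  have hnodup : p.support.Nodup := hp.isPath.support_nodup
  have hlen : p.support.length = 186 := by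
    have := hp.length_support
    simpa using this
  have hmem : ∀ v, v ∈ p.support := hp.mem_support
  have hchain := List.isChain_iff_getElem.1 p.isChain_adj_support
  have hfirst : ∀ h : 0 < p.support.length, p.support[0]'h = a := fun _ => p.support_getElem_zero
  have hlast : ∀ h : 185 < p.support.length, p.support[185]'h = b := by
    intro h
    have h1 := p.getLast_support
    rw [List.getLast_eq_getElem] at h1
    refine Eq.trans ?_ h1
    congr 1
    omega
  generalize p.support = L at *
  clear hp
  have hposlt : ∀ y : Fin 186, L.idxOf y < L.length := fun y => List.idxOf_lt_length_of_mem (hmem y)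
  have hpos : ∀ (i : ℕ) (h : i < L.length), posL L (L[i] : Fin 186) = i := by
    intro i h
    unfold posL
    rw [dif_pos (L[i]).2]
    simp only [Fin.eta]
    rw [hnodup.idxOf_getElem]
  apply dp_sound (q := fun y => posL L (lab u y)) tbl run_check
  rintro ⟨v, nb⟩ hv
  have hc := all_range tbl_check u hu
  rw [List.all_eq_true] at hc
  have hc := hc _ hv
  simp only [Bool.and_eq_true, decide_eq_true_eq] at hc
  obtain ⟨⟨⟨hv62, hnb⟩, hnd⟩, hadj⟩ := hc
  rw [List.all_eq_true] at hnb
  simp only [decide_eq_true_eq] at hnb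
  have hadj' : ∀ g : Fin 186, adjB (62 * u + v) g = true → ∃ w ∈ nb, lab u w = g := by
    intro g hg
    have := all_range hadj g g.2
    simp only [hg, Bool.not_true, Bool.false_or, List.contains_iff_mem, List.mem_map] at this
    exact this
  have hlabv : lab u v = 62 * u + v := by unfold lab; rw [if_pos hv62]
  have hx : 62 * u + v < 186 := by omega
  obtain ⟨i, hi, hix⟩ : ∃ (i : ℕ) (h : i < L.length), L[i] = (⟨62 * u + v, hx⟩ : Fin 186) :=
    ⟨_, hposlt _, List.getElem_idxOf _⟩
  have hi0 : i ≠ 0 := by
    rintro rfl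
    have := hfirst hi
    rw [hix] at this
    apply hua
    rw [← this]
    simp only
    omega
  have hi1 : i ≠ 185 := by
    rintro rfl
    have := hlast hi
    rw [hix] at this
    apply hub
    rw [← this]
    simp only
    omega
  have hposv : posL L (lab u v) = i := by
    rw [hlabv]
    have := hpos i hi
    rw [hix] at this
    exact this
  have hn1 : i + 1 < L.length := by omega
  have hnext : adjB (62 * u + v) (L[i + 1] : Fin 186) = true := by
    have := hchain i hn1
    rw [hix] at this
    exact this
  have hn2 : i - 1 < L.length := by omega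
  have hprev : adjB (62 * u + v) (L[i - 1] : Fin 186) = true := by
    have h1 : i - 1 + 1 < L.length := by omega
    have := (hchain (i - 1) h1).symm
    have he : L[i - 1 + 1] = (⟨62 * u + v, hx⟩ : Fin 186) := by
      rw [← hix]; congr 1; omega
    rw [he] at this
    exact this
  obtain ⟨wa, hwa, hwa'⟩ := hadj' _ hnext
  obtain ⟨wb, hwb, hwb'⟩ := hadj' _ hprev
  have hinj := List.inj_on_of_nodup_map hnd
  refine ⟨by simp only; omega, fun w hw => by have := hnb w hw; omega, wa, hwa, wb, hwb, ?_, ?_, ?_⟩
  · simp only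
    rw [hwa', hpos _ hn1, hposv]
    push_cast; ring
  · simp only
    rw [hwb', hpos _ hn2, hposv]
    omega
  · intro w hw hne1 hne2 hused
    simp only [Used] at hused
    rw [hposv] at hused
    have hlw : lab u w < 186 := lab_lt hu (hnb w hw)
    obtain ⟨j, hj, hjx⟩ : ∃ (j : ℕ) (h : j < L.length), L[j] = (⟨lab u w, hlw⟩ : Fin 186) :=
      ⟨_, hposlt _, List.getElem_idxOf _⟩
    have hposw : posL L (lab u w) = j := by
      have := hpos j hj
      rw [hjx] at this
      exact this
    rw [hposw] at hused
    rcases hused with h | h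
    · have hj' : j = i + 1 := by omega
      subst hj'
      apply hne1
      apply hinj hw hwa
      rw [hwa', hjx]
    · have hj' : j = i - 1 := by omega
      subst hj'
      apply hne2
      apply hinj hw hwb
      rw [hwb', hjx]

end Pool.Agent.Lib.MP_d1bda4_co
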