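import Mathlib
import Pool.Agent.Lib.MP_d1bda4_co.Graph

/-!
The ring of three copies is connected and bipartite, and each graph obtained by deleting one vertex
has a Hamiltonian path.
-/

set_option autoImplicit false

namespace Pool.Agent.Lib.MP_d1bda4_co

open SimpleGraph

/-- Colours of the vertices of the fragment, as a bit mask. -/
def CM : ℕ := 1561242098363706096

/-- Hamiltonian paths of the fragment minus one vertex (the `x`-th list avoids `x`). -/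
def dl : List (List ℕ) := [
  [5, 43, 31, 30, 42, 36, 37, 32, 38, 26, 27, 34, 35, 41, 29, 28, 33, 39, 40, 61, 49, 48, 60,
    54, 55, 50, 56, 44, 45, 52, 53, 59, 47, 46, 51, 57, 58, 3, 7, 1, 22, 10, 11, 12, 24, 18,
    19, 14, 15, 21, 9, 16, 17, 23, 20, 8, 13, 25, 6, 2, 4],
  [5, 43, 31, 30, 29, 28, 40, 34, 35, 41, 38, 26, 27, 39, 33, 32, 37, 36, 42, 0, 6, 2, 24, 12,
    11, 10, 15, 14, 20, 23, 17, 18, 19, 25, 13, 8, 9, 16, 22, 21, 7, 3, 58, 46, 47, 48, 60, 54,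
    55, 61, 49, 44, 45, 52, 53, 59, 56, 50, 51, 57, 4],
  [5, 43, 31, 30, 29, 28, 40, 34, 35, 41, 38, 26, 27, 39, 33, 32, 37, 36, 42, 0, 6, 25, 13,
    12, 24, 18, 19, 14, 20, 8, 9, 16, 17, 23, 11, 10, 15, 21, 22, 1, 7, 3, 58, 46, 47, 48, 60,
    54, 55, 61, 49, 44, 45, 52, 53, 59, 56, 50, 51, 57, 4],
  [5, 1, 7, 21, 9, 8, 13, 25, 19, 18, 17, 16, 22, 10, 15, 14, 20, 23, 11, 12, 24, 2, 6, 0, 42,
    30, 29, 28, 33, 32, 38, 41, 35, 36, 37, 43, 31, 26, 27, 34, 40, 39, 60, 48, 47, 46, 51, 50,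
    56, 59, 53, 54, 55, 61, 49, 44, 45, 52, 58, 57, 4],
  [0, 6, 2, 24, 12, 11, 10, 15, 14, 20, 23, 17, 18, 19, 25, 13, 8, 9, 16, 22, 21, 7, 1, 5, 43,
    31, 30, 42, 36, 37, 32, 38, 26, 27, 34, 35, 41, 29, 28, 33, 39, 40, 61, 49, 48, 60, 54, 55,
    50, 56, 44, 45, 52, 53, 59, 47, 46, 51, 57, 58, 3],
  [0, 42, 30, 29, 28, 33, 32, 38, 41, 35, 36, 37, 43, 31, 26, 27, 34, 40, 39, 60, 48, 47, 46,
    51, 50, 56, 59, 53, 54, 55, 61, 49, 44, 45, 52, 58, 57, 4, 2, 6, 25, 13, 12, 24, 18, 19,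
    14, 20, 8, 9, 16, 17, 23, 11, 10, 15, 21, 22, 1, 7, 3],
  [0, 42, 30, 29, 28, 40, 34, 27, 39, 33, 32, 37, 36, 35, 41, 38, 26, 31, 43, 5, 1, 7, 21, 9,
    8, 13, 25, 19, 18, 17, 16, 22, 10, 15, 14, 20, 23, 11, 12, 24, 2, 4, 57, 45, 44, 49, 61,
    55, 54, 60, 48, 47, 46, 51, 50, 56, 59, 53, 52, 58, 3],
  [0, 42, 30, 29, 28, 40, 34, 27, 39, 33, 32, 37, 36, 35, 41, 38, 26, 31, 43, 5, 1, 22, 10,
    11, 12, 24, 18, 19, 14, 15, 21, 9, 16, 17, 23, 20, 8, 13, 25, 6, 2, 4, 57, 45, 44, 49, 61,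
    55, 54, 60, 48, 47, 46, 51, 50, 56, 59, 53, 52, 58, 3],
  [5, 43, 31, 30, 29, 28, 40, 34, 35, 41, 38, 26, 27, 39, 33, 32, 37, 36, 42, 0, 6, 2, 24, 12,
    13, 25, 19, 18, 17, 16, 9, 21, 15, 14, 20, 23, 11, 10, 22, 1, 7, 3, 58, 46, 47, 48, 60, 54,
    55, 61, 49, 44, 45, 52, 53, 59, 56, 50, 51, 57, 4],
  [0, 42, 30, 29, 28, 40, 34, 27, 39, 33, 32, 37, 36, 35, 41, 38, 26, 31, 43, 5, 1, 7, 21, 15,
    14, 19, 18, 24, 12, 11, 10, 22, 16, 17, 23, 20, 8, 13, 25, 6, 2, 4, 57, 45, 44, 49, 61, 55,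
    54, 60, 48, 47, 46, 51, 50, 56, 59, 53, 52, 58, 3],
  [5, 43, 31, 30, 29, 28, 40, 34, 35, 41, 38, 26, 27, 39, 33, 32, 37, 36, 42, 0, 6, 2, 24, 12,
    11, 23, 17, 18, 19, 25, 13, 8, 20, 14, 15, 21, 9, 16, 22, 1, 7, 3, 58, 46, 47, 48, 60, 54,
    55, 61, 49, 44, 45, 52, 53, 59, 56, 50, 51, 57, 4],
  [0, 42, 30, 29, 28, 40, 34, 27, 39, 33, 32, 37, 36, 35, 41, 38, 26, 31, 43, 5, 1, 7, 21, 9,
    8, 20, 23, 17, 16, 22, 10, 15, 14, 19, 18, 24, 12, 13, 25, 6, 2, 4, 57, 45, 44, 49, 61, 55,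
    54, 60, 48, 47, 46, 51, 50, 56, 59, 53, 52, 58, 3],
  [5, 43, 31, 30, 29, 28, 40, 34, 35, 41, 38, 26, 27, 39, 33, 32, 37, 36, 42, 0, 6, 2, 24, 18,
    17, 16, 9, 8, 13, 25, 19, 14, 20, 23, 11, 10, 15, 21, 22, 1, 7, 3, 58, 46, 47, 48, 60, 54,
    55, 61, 49, 44, 45, 52, 53, 59, 56, 50, 51, 57, 4],
  [0, 42, 30, 29, 28, 40, 34, 27, 39, 33, 32, 37, 36, 35, 41, 38, 26, 31, 43, 5, 1, 7, 21, 9,
    8, 20, 14, 15, 10, 22, 16, 17, 23, 11, 12, 24, 18, 19, 25, 6, 2, 4, 57, 45, 44, 49, 61, 55,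
    54, 60, 48, 47, 46, 51, 50, 56, 59, 53, 52, 58, 3],
  [5, 43, 31, 30, 29, 28, 40, 34, 35, 41, 38, 26, 27, 39, 33, 32, 37, 36, 42, 0, 6, 2, 24, 12,
    11, 23, 20, 8, 13, 25, 19, 18, 17, 16, 9, 21, 15, 10, 22, 1, 7, 3, 58, 46, 47, 48, 60, 54,
    55, 61, 49, 44, 45, 52, 53, 59, 56, 50, 51, 57, 4],
  [0, 42, 30, 29, 28, 40, 34, 27, 39, 33, 32, 37, 36, 35, 41, 38, 26, 31, 43, 5, 1, 7, 21, 9,
    8, 13, 12, 24, 18, 17, 16, 22, 10, 11, 23, 20, 14, 19, 25, 6, 2, 4, 57, 45, 44, 49, 61, 55,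
    54, 60, 48, 47, 46, 51, 50, 56, 59, 53, 52, 58, 3],
  [5, 43, 31, 30, 29, 28, 40, 34, 35, 41, 38, 26, 27, 39, 33, 32, 37, 36, 42, 0, 6, 2, 24, 12,
    11, 10, 15, 14, 20, 23, 17, 18, 19, 25, 13, 8, 9, 21, 22, 1, 7, 3, 58, 46, 47, 48, 60, 54,
    55, 61, 49, 44, 45, 52, 53, 59, 56, 50, 51, 57, 4],
  [0, 42, 30, 29, 28, 40, 34, 27, 39, 33, 32, 37, 36, 35, 41, 38, 26, 31, 43, 5, 1, 7, 21, 9,
    16, 22, 10, 15, 14, 19, 18, 24, 12, 11, 23, 20, 8, 13, 25, 6, 2, 4, 57, 45, 44, 49, 61, 55,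
    54, 60, 48, 47, 46, 51, 50, 56, 59, 53, 52, 58, 3],
  [5, 43, 31, 30, 29, 28, 40, 34, 35, 41, 38, 26, 27, 39, 33, 32, 37, 36, 42, 0, 6, 2, 24, 12,
    11, 10, 15, 14, 19, 25, 13, 8, 20, 23, 17, 16, 9, 21, 22, 1, 7, 3, 58, 46, 47, 48, 60, 54,
    55, 61, 49, 44, 45, 52, 53, 59, 56, 50, 51, 57, 4],
  [0, 42, 30, 29, 28, 40, 34, 27, 39, 33, 32, 37, 36, 35, 41, 38, 26, 31, 43, 5, 1, 7, 21, 15,
    14, 20, 8, 9, 16, 22, 10, 11, 23, 17, 18, 24, 12, 13, 25, 6, 2, 4, 57, 45, 44, 49, 61, 55,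
    54, 60, 48, 47, 46, 51, 50, 56, 59, 53, 52, 58, 3],
  [0, 42, 30, 29, 28, 40, 34, 27, 39, 33, 32, 37, 36, 35, 41, 38, 26, 31, 43, 5, 1, 7, 21, 22,
    10, 15, 14, 19, 18, 24, 12, 11, 23, 17, 16, 9, 8, 13, 25, 6, 2, 4, 57, 45, 44, 49, 61, 55,
    54, 60, 48, 47, 46, 51, 50, 56, 59, 53, 52, 58, 3],
  [5, 43, 31, 30, 29, 28, 40, 34, 35, 41, 38, 26, 27, 39, 33, 32, 37, 36, 42, 0, 6, 2, 24, 12,
    11, 10, 15, 14, 20, 23, 17, 18, 19, 25, 13, 8, 9, 16, 22, 1, 7, 3, 58, 46, 47, 48, 60, 54,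
    55, 61, 49, 44, 45, 52, 53, 59, 56, 50, 51, 57, 4],
  [0, 42, 30, 29, 28, 40, 34, 27, 39, 33, 32, 37, 36, 35, 41, 38, 26, 31, 43, 5, 1, 7, 21, 9,
    16, 17, 18, 24, 12, 13, 8, 20, 23, 11, 10, 15, 14, 19, 25, 6, 2, 4, 57, 45, 44, 49, 61, 55,
    54, 60, 48, 47, 46, 51, 50, 56, 59, 53, 52, 58, 3],
  [5, 43, 31, 30, 29, 28, 40, 34, 35, 41, 38, 26, 27, 39, 33, 32, 37, 36, 42, 0, 6, 2, 24, 12,
    11, 10, 15, 14, 20, 8, 13, 25, 19, 18, 17, 16, 9, 21, 22, 1, 7, 3, 58, 46, 47, 48, 60, 54,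
    55, 61, 49, 44, 45, 52, 53, 59, 56, 50, 51, 57, 4],
  [0, 42, 30, 29, 28, 40, 34, 27, 39, 33, 32, 37, 36, 35, 41, 38, 26, 31, 43, 5, 1, 7, 21, 9,
    8, 13, 12, 11, 23, 20, 14, 15, 10, 22, 16, 17, 18, 19, 25, 6, 2, 4, 57, 45, 44, 49, 61, 55,
    54, 60, 48, 47, 46, 51, 50, 56, 59, 53, 52, 58, 3],
  [5, 43, 31, 30, 29, 28, 40, 34, 35, 41, 38, 26, 27, 39, 33, 32, 37, 36, 42, 0, 6, 2, 24, 12,
    13, 8, 9, 16, 17, 18, 19, 14, 20, 23, 11, 10, 15, 21, 22, 1, 7, 3, 58, 46, 47, 48, 60, 54,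
    55, 61, 49, 44, 45, 52, 53, 59, 56, 50, 51, 57, 4],
  [5, 1, 7, 3, 58, 46, 47, 48, 60, 54, 55, 50, 51, 57, 45, 52, 53, 59, 56, 44, 49, 61, 40, 28,
    29, 41, 38, 32, 33, 39, 27, 34, 35, 36, 37, 43, 31, 30, 42, 0, 6, 25, 13, 12, 11, 10, 22,
    16, 17, 23, 20, 8, 9, 21, 15, 14, 19, 18, 24, 2, 4],
  [0, 6, 25, 13, 12, 11, 10, 15, 14, 19, 18, 24, 2, 4, 57, 45, 44, 49, 61, 55, 54, 53, 52, 58,
    46, 51, 50, 56, 59, 47, 48, 60, 39, 33, 32, 37, 36, 42, 30, 29, 28, 40, 34, 35, 41, 38, 26,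
    31, 43, 5, 1, 22, 16, 17, 23, 20, 8, 9, 21, 7, 3],
  [5, 1, 7, 3, 58, 46, 47, 48, 60, 54, 55, 50, 51, 57, 45, 52, 53, 59, 56, 44, 49, 61, 40, 34,
    35, 36, 37, 43, 31, 26, 27, 39, 33, 32, 38, 41, 29, 30, 42, 0, 6, 25, 13, 12, 11, 10, 22,
    16, 17, 23, 20, 8, 9, 21, 15, 14, 19, 18, 24, 2, 4],
  [0, 6, 25, 13, 12, 11, 10, 15, 14, 19, 18, 24, 2, 4, 57, 45, 44, 49, 61, 55, 54, 53, 52, 58,
    46, 51, 50, 56, 59, 47, 48, 60, 39, 27, 26, 38, 41, 35, 34, 40, 28, 33, 32, 37, 36, 42, 30,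
    31, 43, 5, 1, 22, 16, 17, 23, 20, 8, 9, 21, 7, 3],
  [5, 1, 7, 3, 58, 46, 47, 48, 60, 54, 55, 50, 51, 57, 45, 52, 53, 59, 56, 44, 49, 61, 40, 28,
    29, 41, 35, 34, 27, 39, 33, 32, 38, 26, 31, 43, 37, 36, 42, 0, 6, 25, 13, 12, 11, 10, 22,
    16, 17, 23, 20, 8, 9, 21, 15, 14, 19, 18, 24, 2, 4],
  [0, 6, 25, 13, 12, 11, 10, 15, 14, 19, 18, 24, 2, 4, 57, 45, 44, 49, 61, 55, 54, 53, 52, 58,
    46, 51, 50, 56, 59, 47, 48, 60, 39, 27, 26, 38, 32, 33, 28, 40, 34, 35, 41, 29, 30, 42, 36,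
    37, 43, 5, 1, 22, 16, 17, 23, 20, 8, 9, 21, 7, 3],
  [5, 1, 7, 3, 58, 46, 47, 48, 60, 54, 55, 50, 51, 57, 45, 52, 53, 59, 56, 44, 49, 61, 40, 28,
    33, 39, 27, 34, 35, 36, 37, 43, 31, 26, 38, 41, 29, 30, 42, 0, 6, 25, 13, 12, 11, 10, 22,
    16, 17, 23, 20, 8, 9, 21, 15, 14, 19, 18, 24, 2, 4],
  [0, 6, 25, 13, 12, 11, 10, 15, 14, 19, 18, 24, 2, 4, 57, 45, 44, 49, 61, 55, 54, 53, 52, 58,
    46, 51, 50, 56, 59, 47, 48, 60, 39, 27, 26, 31, 30, 42, 36, 35, 34, 40, 28, 29, 41, 38, 32,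
    37, 43, 5, 1, 22, 16, 17, 23, 20, 8, 9, 21, 7, 3],
  [5, 1, 7, 3, 58, 46, 47, 48, 60, 54, 55, 50, 51, 57, 45, 52, 53, 59, 56, 44, 49, 61, 40, 28,
    29, 30, 31, 43, 37, 32, 33, 39, 27, 26, 38, 41, 35, 36, 42, 0, 6, 25, 13, 12, 11, 10, 22,
    16, 17, 23, 20, 8, 9, 21, 15, 14, 19, 18, 24, 2, 4],
  [0, 6, 25, 13, 12, 11, 10, 15, 14, 19, 18, 24, 2, 4, 57, 45, 44, 49, 61, 55, 54, 53, 52, 58,
    46, 51, 50, 56, 59, 47, 48, 60, 39, 27, 34, 40, 28, 33, 32, 37, 36, 42, 30, 29, 41, 38, 26,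
    31, 43, 5, 1, 22, 16, 17, 23, 20, 8, 9, 21, 7, 3],
  [5, 1, 7, 3, 58, 46, 47, 48, 60, 54, 55, 50, 51, 57, 45, 52, 53, 59, 56, 44, 49, 61, 40, 34,
    35, 41, 29, 28, 33, 39, 27, 26, 38, 32, 37, 43, 31, 30, 42, 0, 6, 25, 13, 12, 11, 10, 22,
    16, 17, 23, 20, 8, 9, 21, 15, 14, 19, 18, 24, 2, 4],
  [0, 6, 25, 13, 12, 11, 10, 15, 14, 19, 18, 24, 2, 4, 57, 45, 44, 49, 61, 55, 54, 53, 52, 58,
    46, 51, 50, 56, 59, 47, 48, 60, 39, 33, 32, 38, 26, 27, 34, 40, 28, 29, 41, 35, 36, 42, 30,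
    31, 43, 5, 1, 22, 16, 17, 23, 20, 8, 9, 21, 7, 3],
  [0, 6, 25, 13, 12, 11, 10, 15, 14, 19, 18, 24, 2, 4, 57, 45, 44, 49, 61, 55, 54, 53, 52, 58,
    46, 51, 50, 56, 59, 47, 48, 60, 39, 40, 28, 33, 32, 37, 36, 42, 30, 29, 41, 35, 34, 27, 26,
    31, 43, 5, 1, 22, 16, 17, 23, 20, 8, 9, 21, 7, 3],
  [5, 1, 7, 3, 58, 46, 47, 48, 60, 54, 55, 50, 51, 57, 45, 52, 53, 59, 56, 44, 49, 61, 40, 28,
    33, 32, 37, 43, 31, 30, 29, 41, 38, 26, 27, 34, 35, 36, 42, 0, 6, 25, 13, 12, 11, 10, 22,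
    16, 17, 23, 20, 8, 9, 21, 15, 14, 19, 18, 24, 2, 4],
  [0, 6, 25, 13, 12, 11, 10, 15, 14, 19, 18, 24, 2, 4, 57, 45, 44, 49, 61, 55, 54, 53, 52, 58,
    46, 51, 50, 56, 59, 47, 48, 60, 39, 27, 34, 35, 36, 42, 30, 31, 26, 38, 41, 29, 28, 33, 32,
    37, 43, 5, 1, 22, 16, 17, 23, 20, 8, 9, 21, 7, 3],
  [5, 1, 7, 3, 58, 46, 47, 48, 60, 54, 55, 50, 51, 57, 45, 52, 53, 59, 56, 44, 49, 61, 40, 39,
    27, 34, 35, 36, 37, 43, 31, 26, 38, 32, 33, 28, 29, 30, 42, 0, 6, 25, 13, 12, 11, 10, 22,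
    16, 17, 23, 20, 8, 9, 21, 15, 14, 19, 18, 24, 2, 4],
  [0, 6, 25, 13, 12, 11, 10, 15, 14, 19, 18, 24, 2, 4, 57, 45, 44, 49, 61, 55, 54, 53, 52, 58,
    46, 51, 50, 56, 59, 47, 48, 60, 39, 27, 26, 31, 30, 29, 41, 38, 32, 33, 28, 40, 34, 35, 36,
    37, 43, 5, 1, 22, 16, 17, 23, 20, 8, 9, 21, 7, 3],
  [5, 1, 7, 3, 58, 46, 47, 48, 60, 54, 55, 50, 51, 57, 45, 52, 53, 59, 56, 44, 49, 61, 40, 28,
    29, 30, 31, 26, 38, 41, 35, 34, 27, 39, 33, 32, 37, 36, 42, 0, 6, 25, 13, 12, 11, 10, 22,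
    16, 17, 23, 20, 8, 9, 21, 15, 14, 19, 18, 24, 2, 4],
  [5, 1, 7, 3, 58, 46, 47, 59, 56, 50, 51, 57, 45, 52, 53, 54, 55, 61, 49, 48, 60, 39, 27, 26,
    31, 43, 37, 36, 35, 34, 40, 28, 33, 32, 38, 41, 29, 30, 42, 0, 6, 25, 13, 12, 11, 10, 22,
    16, 17, 23, 20, 8, 9, 21, 15, 14, 19, 18, 24, 2, 4],
  [0, 6, 25, 13, 12, 11, 10, 15, 14, 19, 18, 24, 2, 4, 57, 51, 50, 55, 54, 60, 48, 47, 46, 58,
    52, 53, 59, 56, 44, 49, 61, 40, 28, 29, 30, 42, 36, 37, 32, 33, 39, 27, 34, 35, 41, 38, 26,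
    31, 43, 5, 1, 22, 16, 17, 23, 20, 8, 9, 21, 7, 3],
  [5, 1, 7, 3, 58, 52, 53, 54, 55, 61, 49, 44, 45, 57, 51, 50, 56, 59, 47, 48, 60, 39, 27, 26,
    31, 43, 37, 36, 35, 34, 40, 28, 33, 32, 38, 41, 29, 30, 42, 0, 6, 25, 13, 12, 11, 10, 22,
    16, 17, 23, 20, 8, 9, 21, 15, 14, 19, 18, 24, 2, 4],
  [0, 6, 25, 13, 12, 11, 10, 15, 14, 19, 18, 24, 2, 4, 57, 45, 44, 56, 59, 53, 52, 58, 46, 51,
    50, 55, 54, 60, 48, 49, 61, 40, 28, 29, 30, 42, 36, 37, 32, 33, 39, 27, 34, 35, 41, 38, 26,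
    31, 43, 5, 1, 22, 16, 17, 23, 20, 8, 9, 21, 7, 3],
  [5, 1, 7, 3, 58, 46, 47, 59, 53, 52, 45, 57, 51, 50, 56, 44, 49, 61, 55, 54, 60, 39, 27, 26,
    31, 43, 37, 36, 35, 34, 40, 28, 33, 32, 38, 41, 29, 30, 42, 0, 6, 25, 13, 12, 11, 10, 22,
    16, 17, 23, 20, 8, 9, 21, 15, 14, 19, 18, 24, 2, 4],
  [0, 6, 25, 13, 12, 11, 10, 15, 14, 19, 18, 24, 2, 4, 57, 45, 44, 56, 50, 51, 46, 58, 52, 53,
    59, 47, 48, 60, 54, 55, 61, 40, 28, 29, 30, 42, 36, 37, 32, 33, 39, 27, 34, 35, 41, 38, 26,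
    31, 43, 5, 1, 22, 16, 17, 23, 20, 8, 9, 21, 7, 3],
  [5, 1, 7, 3, 58, 46, 51, 57, 45, 52, 53, 54, 55, 61, 49, 44, 56, 59, 47, 48, 60, 39, 27, 26,
    31, 43, 37, 36, 35, 34, 40, 28, 33, 32, 38, 41, 29, 30, 42, 0, 6, 25, 13, 12, 11, 10, 22,
    16, 17, 23, 20, 8, 9, 21, 15, 14, 19, 18, 24, 2, 4],
  [0, 6, 25, 13, 12, 11, 10, 15, 14, 19, 18, 24, 2, 4, 57, 45, 44, 49, 48, 60, 54, 53, 52, 58,
    46, 47, 59, 56, 50, 55, 61, 40, 28, 29, 30, 42, 36, 37, 32, 33, 39, 27, 34, 35, 41, 38, 26,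
    31, 43, 5, 1, 22, 16, 17, 23, 20, 8, 9, 21, 7, 3],
  [5, 1, 7, 3, 58, 46, 47, 48, 49, 61, 55, 50, 51, 57, 45, 44, 56, 59, 53, 54, 60, 39, 27, 26,
    31, 43, 37, 36, 35, 34, 40, 28, 33, 32, 38, 41, 29, 30, 42, 0, 6, 25, 13, 12, 11, 10, 22,
    16, 17, 23, 20, 8, 9, 21, 15, 14, 19, 18, 24, 2, 4],
  [0, 6, 25, 13, 12, 11, 10, 15, 14, 19, 18, 24, 2, 4, 57, 45, 52, 58, 46, 51, 50, 55, 54, 60,
    48, 47, 59, 56, 44, 49, 61, 40, 28, 29, 30, 42, 36, 37, 32, 33, 39, 27, 34, 35, 41, 38, 26,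
    31, 43, 5, 1, 22, 16, 17, 23, 20, 8, 9, 21, 7, 3],
  [5, 1, 7, 3, 58, 52, 53, 59, 47, 46, 51, 57, 45, 44, 56, 50, 55, 61, 49, 48, 60, 39, 27, 26,
    31, 43, 37, 36, 35, 34, 40, 28, 33, 32, 38, 41, 29, 30, 42, 0, 6, 25, 13, 12, 11, 10, 22,
    16, 17, 23, 20, 8, 9, 21, 15, 14, 19, 18, 24, 2, 4],
  [0, 6, 25, 13, 12, 11, 10, 15, 14, 19, 18, 24, 2, 4, 57, 51, 50, 56, 44, 45, 52, 58, 46, 47,
    59, 53, 54, 60, 48, 49, 61, 40, 28, 29, 30, 42, 36, 37, 32, 33, 39, 27, 34, 35, 41, 38, 26,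
    31, 43, 5, 1, 22, 16, 17, 23, 20, 8, 9, 21, 7, 3],
  [0, 6, 25, 13, 12, 11, 10, 15, 14, 19, 18, 24, 2, 4, 57, 58, 46, 51, 50, 55, 54, 60, 48, 47,
    59, 53, 52, 45, 44, 49, 61, 40, 28, 29, 30, 42, 36, 37, 32, 33, 39, 27, 34, 35, 41, 38, 26,
    31, 43, 5, 1, 22, 16, 17, 23, 20, 8, 9, 21, 7, 3],
  [5, 1, 7, 3, 58, 46, 51, 50, 55, 61, 49, 48, 47, 59, 56, 44, 45, 52, 53, 54, 60, 39, 27, 26,
    31, 43, 37, 36, 35, 34, 40, 28, 33, 32, 38, 41, 29, 30, 42, 0, 6, 25, 13, 12, 11, 10, 22,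
    16, 17, 23, 20, 8, 9, 21, 15, 14, 19, 18, 24, 2, 4],
  [0, 6, 25, 13, 12, 11, 10, 15, 14, 19, 18, 24, 2, 4, 57, 45, 52, 53, 54, 60, 48, 49, 44, 56,
    59, 47, 46, 51, 50, 55, 61, 40, 28, 29, 30, 42, 36, 37, 32, 33, 39, 27, 34, 35, 41, 38, 26,
    31, 43, 5, 1, 22, 16, 17, 23, 20, 8, 9, 21, 7, 3],
  [5, 1, 7, 3, 58, 57, 45, 52, 53, 54, 55, 61, 49, 44, 56, 50, 51, 46, 47, 48, 60, 39, 27, 26,
    31, 43, 37, 36, 35, 34, 40, 28, 33, 32, 38, 41, 29, 30, 42, 0, 6, 25, 13, 12, 11, 10, 22,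
    16, 17, 23, 20, 8, 9, 21, 15, 14, 19, 18, 24, 2, 4],
  [0, 6, 25, 13, 12, 11, 10, 15, 14, 19, 18, 24, 2, 4, 57, 45, 44, 49, 48, 47, 59, 56, 50, 51,
    46, 58, 52, 53, 54, 55, 61, 40, 28, 29, 30, 42, 36, 37, 32, 33, 39, 27, 34, 35, 41, 38, 26,
    31, 43, 5, 1, 22, 16, 17, 23, 20, 8, 9, 21, 7, 3],
  [5, 1, 7, 3, 58, 46, 47, 48, 49, 44, 56, 59, 53, 52, 45, 57, 51, 50, 55, 54, 60, 39, 27, 26,
    31, 43, 37, 36, 35, 34, 40, 28, 33, 32, 38, 41, 29, 30, 42, 0, 6, 25, 13, 12, 11, 10, 22,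
    16, 17, 23, 20, 8, 9, 21, 15, 14, 19, 18, 24, 2, 4]]

/-- Hamiltonian paths of the fragment that start at one of the four ports. -/
def ha1 : List ℕ := [0, 42, 30, 29, 28, 40, 34, 27, 39, 33, 32, 37, 36, 35, 41, 38, 26, 31, 43, 5, 1, 22, 10,
    11, 12, 24, 18, 19, 14, 15, 21, 9, 16, 17, 23, 20, 8, 13, 25, 6, 2, 4, 57, 45, 44, 49, 61,
    55, 54, 60, 48, 47, 46, 51, 50, 56, 59, 53, 52, 58, 3, 7]
def ha2 : List ℕ := [3, 58, 52, 53, 59, 56, 50, 51, 46, 47, 48, 60, 54, 55, 61, 49, 44, 45, 57, 4, 2, 24, 12,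
    11, 23, 20, 14, 15, 10, 22, 16, 17, 18, 19, 25, 13, 8, 9, 21, 7, 1, 5, 43, 31, 26, 38, 41,
    35, 36, 37, 32, 33, 39, 27, 34, 40, 28, 29, 30, 42, 0, 6]
def hb1 : List ℕ := [5, 1, 7, 3, 58, 46, 51, 50, 55, 61, 49, 48, 47, 59, 56, 44, 45, 52, 53, 54, 60, 39, 27, 26,
    31, 43, 37, 36, 35, 34, 40, 28, 33, 32, 38, 41, 29, 30, 42, 0, 6, 25, 13, 12, 11, 10, 22,
    16, 17, 23, 20, 8, 9, 21, 15, 14, 19, 18, 24, 2, 4, 57]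
def hb2 : List ℕ := [4, 2, 24, 18, 19, 14, 15, 21, 9, 8, 20, 23, 17, 16, 22, 10, 11, 12, 13, 25, 6, 0, 42, 36,
    37, 32, 33, 39, 27, 34, 35, 41, 38, 26, 31, 30, 29, 28, 40, 61, 49, 44, 56, 59, 53, 52, 45,
    57, 51, 50, 55, 54, 60, 48, 47, 46, 58, 3, 7, 1, 5, 43]

def sh (k : ℕ) (l : List ℕ) : List ℕ := l.map (fun y => 62 * (k % 3) + y)

/-- The path that avoids the vertex `x` of the copy `u`. -/
def pl (u x : ℕ) : List ℕ :=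
  bif Nat.testBit CM x then
    sh (u + 1) hb1.reverse ++ (sh u (dl.getD x []) ++ sh (u + 2) hb2)
  else
    sh (u + 2) ha1.reverse ++ (sh u (dl.getD x []) ++ sh (u + 1) ha2)

def chainB : ℕ → List ℕ → Bool
  | _, [] => true
  | x, y :: t => adjB x y && chainB y t

def visB : List ℕ → ℕ → Bool
  | [], m => Nat.beq m (2 ^ 186 - 1)
  | x :: t, m => !(Nat.testBit m x) && visB t (m ||| 2 ^ x)

def okB (v : ℕ) : List ℕ → Bool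
  | [] => false
  | x :: t => chainB x t && visB (x :: t) (2 ^ v)

lemma ok_check : ((List.range 3).all fun u => (List.range 62).all fun x =>
    okB (62 * u + x) (pl u x)) = true := by decide +kernel

lemma col_check : ((List.range 186).all fun a => (List.range 186).all fun b =>
    (!adjB a b) || (Nat.testBit CM (a % 62) ^^ Nat.testBit CM (b % 62))) = true := by
  decide +kernel

theorem col : G.Colorable 2 := by
  have c : G.Coloring Bool := Coloring.mk (fun a => Nat.testBit CM ((a : ℕ) % 62)) (by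
    intro a b h heq
    have h1 := all_range (all_range col_check a a.2) b b.2
    have h2 : adjB a b = true := h
    simp only [h2, Bool.not_true, Bool.false_or] at h1
    simp only [heq, bne_self_eq_false, Bool.false_eq_true] at h1)
  have := c.colorable
  simpa using this

lemma vis_sound : ∀ (l : List ℕ) (m : ℕ), visB l m = true →
    l.Nodup ∧ (∀ x ∈ l, Nat.testBit m x = false) ∧
      ∀ j, decide (j < 186) = (Nat.testBit m j || decide (j ∈ l))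
  | [], m, h => by
    have h' : m = 2 ^ 186 - 1 := Nat.eq_of_beq_eq_true h
    refine ⟨List.nodup_nil, by simp, fun j => ?_⟩
    rw [h', Nat.testBit_two_pow_sub_one]
    simp
  | x :: t, m, h => by
    simp only [visB, Bool.and_eq_true, Bool.not_eq_true'] at h
    obtain ⟨h1, h2⟩ := h
    obtain ⟨hn, hm, hj⟩ := vis_sound t _ h2
    simp only [Nat.testBit_or, Nat.testBit_two_pow, Bool.or_eq_false_iff,
      decide_eq_false_iff_not] at hm hj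
    refine ⟨List.nodup_cons.2 ⟨fun hx => (hm x hx).2 rfl, hn⟩, ?_, fun j => ?_⟩
    · intro y hy
      rcases List.mem_cons.1 hy with rfl | hy
      · exact h1
      · exact (hm y hy).1
    · rw [hj j]
      by_cases hxj : x = j
      · subst hxj; simp
      · have : ¬ j = x := fun h => hxj h.symm
        simp [hxj, this]

/-- The number of a vertex of the graph minus `v`. -/
def vv (v : Fin 186) (s : ({v}ᶜ : Set (Fin 186))) : ℕ := s.1.val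

lemma vv_inj (v : Fin 186) {s t : ({v}ᶜ : Set (Fin 186))} (h : vv v s = vv v t) : s = t :=
  Subtype.ext (Fin.ext h)

lemma ham_of {V : Type*} [DecidableEq V] {H : SimpleGraph V} {a b : V} (p : H.Walk a b)
    (hnd : p.support.Nodup) (hmem : ∀ s, s ∈ p.support) : p.IsHamiltonian :=
  fun s => List.count_eq_one_of_mem hnd (hmem s)

lemma walk_of_chain (v : Fin 186) : ∀ (l : List ℕ) (x : ℕ) (hx : x < 186)
    (hxv : (⟨x, hx⟩ : Fin 186) ∈ ({v}ᶜ : Set (Fin 186))) (_ : ∀ y ∈ l, y < 186 ∧ y ≠ v)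
    (_ : chainB x l = true), ∃ (b : ({v}ᶜ : Set (Fin 186)))
      (p : (G.induce ({v}ᶜ : Set (Fin 186))).Walk ⟨⟨x, hx⟩, hxv⟩ b),
      p.support.map (vv v) = x :: l
  | [], x, hx, hxv, _, _ => ⟨_, Walk.nil, by simp [vv]⟩
  | y :: t, x, hx, hxv, hl, hc => by
    simp only [chainB, Bool.and_eq_true] at hc
    have hy := hl y List.mem_cons_self
    have hyv : (⟨y, hy.1⟩ : Fin 186) ∈ ({v}ᶜ : Set (Fin 186)) := by
      simp only [Set.mem_compl_iff, Set.mem_singleton_iff]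
      intro h
      exact hy.2 (by rw [← h])
    obtain ⟨b, p, hp⟩ := walk_of_chain v t y hy.1 hyv
      (fun z hz => hl z (List.mem_cons_of_mem _ hz)) hc.2
    have hadj : (G.induce ({v}ᶜ : Set (Fin 186))).Adj ⟨⟨x, hx⟩, hxv⟩ ⟨⟨y, hy.1⟩, hyv⟩ := hc.1
    refine ⟨b, Walk.cons hadj p, ?_⟩
    rw [Walk.support_cons, List.map_cons, hp]
    rfl

theorem pos (v : Fin 186) : ∃ a b : ({v}ᶜ : Set (Fin 186)),
    ∃ p : (G.induce ({v}ᶜ : Set (Fin 186))).Walk a b, p.IsHamiltonian := by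
  have h := all_range (all_range ok_check ((v : ℕ) / 62) (by omega)) ((v : ℕ) % 62) (by omega)
  rw [Nat.div_add_mod] at h
  rcases hl : pl ((v : ℕ) / 62) ((v : ℕ) % 62) with _ | ⟨x, t⟩
  · rw [hl] at h; simp [okB] at h
  rw [hl] at h
  simp only [okB, Bool.and_eq_true] at h
  obtain ⟨hc, hv⟩ := h
  obtain ⟨hn, hm, hj⟩ := vis_sound _ _ hv
  simp only [Nat.testBit_two_pow, decide_eq_false_iff_not] at hm hj
  have hlt : ∀ y ∈ x :: t, y < 186 ∧ y ≠ v := by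
    intro y hy
    have := hj y
    simp only [hy, decide_true, Bool.or_true, decide_eq_true_eq] at this
    exact ⟨this, fun h => hm y hy h.symm⟩
  have hx := hlt x List.mem_cons_self
  have hxv : (⟨x, hx.1⟩ : Fin 186) ∈ ({v}ᶜ : Set (Fin 186)) := by
    simp only [Set.mem_compl_iff, Set.mem_singleton_iff]
    intro h
    exact hx.2 (by rw [← h])
  obtain ⟨b, p, hp⟩ := walk_of_chain v t x hx.1 hxv
    (fun z hz => hlt z (List.mem_cons_of_mem _ hz)) hc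
  refine ⟨_, b, p, ham_of p ?_ fun s => ?_⟩
  · apply List.Nodup.of_map (vv v)
    rw [hp]; exact hn
  · have hs : vv v s ∈ x :: t := by
      have := hj (vv v s)
      have hne : ¬ ((v : ℕ) = vv v s) := by
        intro h
        exact s.2 (Fin.ext h.symm)
      have hlt : vv v s < 186 := s.1.2
      simp only [hlt, decide_true, hne, decide_false, Bool.false_or] at this
      simpa using this.symm
    rw [← hp, List.mem_map] at hs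
    obtain ⟨s', hs', he⟩ := hs
    rw [← vv_inj v he]; exact hs'

theorem conn : G.Connected := by
  rw [connected_iff]
  refine ⟨fun x y => ?_, ⟨0⟩⟩
  obtain ⟨v, hvx, hvy⟩ : ∃ v : Fin 186, x ≠ v ∧ y ≠ v := by
    by_contra hcon
    have h0 := fun h1 h2 => hcon ⟨0, h1, h2⟩
    have h1 := fun h1 h2 => hcon ⟨1, h1, h2⟩
    have h2 := fun h1 h2 => hcon ⟨2, h1, h2⟩
    simp only [imp_false, not_not, ne_eq] at h0 h1 h2
    by_cases hx0 : x = 0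
    · have hx1 : ¬ x = 1 := by rw [hx0]; decide
      have hx2 : ¬ x = 2 := by rw [hx0]; decide
      have e1 := h1 hx1
      have e2 := h2 hx2
      rw [e1] at e2
      exact absurd e2 (by decide)
    · have e0 := h0 hx0
      have hy1 : ¬ x = 1 → False := fun h => by
        have := h1 h; rw [e0] at this; exact absurd this (by decide)
      have hy2 : ¬ x = 2 → False := fun h => by
        have := h2 h; rw [e0] at this; exact absurd this (by decide)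
      have ex1 : x = 1 := not_not.1 hy1
      have ex2 : x = 2 := not_not.1 hy2
      rw [ex1] at ex2
      exact absurd ex2 (by decide)
  obtain ⟨a, b, p, hp⟩ := pos v
  have hx : (⟨x, hvx⟩ : ({v}ᶜ : Set (Fin 186))) ∈ p.support := hp.mem_support _
  have hy : (⟨y, hvy⟩ : ({v}ᶜ : Set (Fin 186))) ∈ p.support := hp.mem_support _
  have h1 : (G.induce ({v}ᶜ : Set (Fin 186))).Reachable a ⟨x, hvx⟩ := ⟨p.takeUntil _ hx⟩
  have h2 : (G.induce ({v}ᶜ : Set (Fin 186))).Reachable a ⟨y, hvy⟩ := ⟨p.takeUntil _ hy⟩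
  have h3 := (h1.symm.trans h2).map (Embedding.induce ({v}ᶜ : Set (Fin 186))).toHom
  exact h3

end Pool.Agent.Lib.MP_d1bda4_co
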